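import Mathlib
import Pool.Agent.U798.BV.Spec

/-!
# Package TRIV: a right continuous convolution whose Fourier coefficients vanish is zero
-/

set_option autoImplicit false

open MeasureTheory Filter Topology

namespace Pool.Agent.U660.BV

open Pool.Agent.U798.BV

lemma fourier_coe_eq (n : ℤ) (x : ℝ) : (fourier n (x : UnitAddCircle) : ℂ) = e1 (n * x) := by
  rw [fourier_coe_apply]
  unfold e1
  congr 1
  push_cast
  ring

theorem fourier_unique (G : ℝ → ℂ) (hm : Measurable G) (B : ℝ) (hB : ∀ x, ‖G x‖ ≤ B)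
    (h0 : ∀ n : ℤ, ∫ x in (0 : ℝ)..1, e1 (-(n * x)) * G x = 0) :
    ∀ᵐ x ∂(volume.restrict (Set.Ioc (0 : ℝ) 1)), G x = 0 := by
  set F : UnitAddCircle → ℂ := AddCircle.liftIoc 1 0 G with hF
  have hFm : Measurable F := by
    have h1 : F = (Set.domRestrict (Set.Ioc (0 : ℝ) (0 + 1)) G) ∘ (AddCircle.measurableEquivIoc 1 0) := rfl
    rw [h1]
    exact (hm.comp measurable_subtype_coe).comp (AddCircle.measurableEquivIoc 1 0).measurable
  have hFB : ∀ z, ‖F z‖ ≤ B := by
    intro z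
    obtain ⟨x, hx, rfl⟩ : ∃ x : ℝ, x ∈ Set.Ioc (0 : ℝ) (0 + 1) ∧ (x : UnitAddCircle) = z := by
      refine ⟨(AddCircle.equivIoc 1 0 z : ℝ), (AddCircle.equivIoc 1 0 z).2, ?_⟩
      exact (AddCircle.equivIoc 1 0).symm_apply_apply z
    rw [hF, AddCircle.liftIoc_coe_apply hx]
    exact hB x
  have hFp : MemLp F 2 (AddCircle.haarAddCircle (T := (1 : ℝ))) :=
    MemLp.of_bound hFm.aestronglyMeasurable B (Eventually.of_forall hFB)
  set f := hFp.toLp F with hf
  have hcoef : ∀ n : ℤ, fourierCoeff (T := (1 : ℝ)) (f : UnitAddCircle → ℂ) n = 0 := by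
    intro n
    have h1 : (f : UnitAddCircle → ℂ) =ᵐ[AddCircle.haarAddCircle] F := hFp.coeFn_toLp
    rw [fourierCoeff_congr_ae h1, fourierCoeff_eq_intervalIntegral F n 0]
    have h2 : ∫ x in (0 : ℝ)..0 + 1, @fourier 1 (-n) x • F x = ∫ x in (0 : ℝ)..1, e1 (-(n * x)) * G x := by
      rw [zero_add]
      apply intervalIntegral.integral_congr_ae
      refine Eventually.of_forall fun x hx => ?_
      rw [Set.uIoc_of_le zero_le_one] at hx
      rw [smul_eq_mul, fourier_coe_eq, hF, AddCircle.liftIoc_coe_apply (by rwa [zero_add])]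
      congr 2
      push_cast
      ring
    rw [h2, h0 n, smul_zero]
  have hf0 : f = 0 := by
    apply (fourierBasis (T := (1 : ℝ))).repr.injective
    rw [map_zero]
    ext n
    rw [fourierBasis_repr, hcoef n]
    rfl
  have hF0 : F =ᵐ[AddCircle.haarAddCircle] 0 := by
    have h1 : (f : UnitAddCircle → ℂ) =ᵐ[AddCircle.haarAddCircle] F := hFp.coeFn_toLp
    have h2 : (f : UnitAddCircle → ℂ) =ᵐ[AddCircle.haarAddCircle] 0 := by
      rw [hf0]
      exact Lp.coeFn_zero _ _ _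
    exact h1.symm.trans h2
  have hvol : F =ᵐ[(volume : Measure UnitAddCircle)] 0 := by
    have : (volume : Measure UnitAddCircle) = ENNReal.ofReal 1 • AddCircle.haarAddCircle :=
      AddCircle.volume_eq_smul_haarAddCircle
    rw [this]
    exact Measure.ae_smul_measure hF0 _
  have hpb := (AddCircle.measurePreserving_mk 1 0).quasiMeasurePreserving.ae hvol
  rw [zero_add] at hpb
  filter_upwards [hpb, ae_restrict_mem measurableSet_Ioc] with x hx hx2
  have h3 : F (x : UnitAddCircle) = G x := by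
    rw [hF, AddCircle.liftIoc_coe_apply (by rwa [zero_add])]
  rw [← h3]
  exact hx

lemma e1_cont : Continuous e1 := by
  unfold e1
  fun_prop

lemma e1_norm (x : ℝ) : ‖e1 x‖ = 1 := by
  unfold e1
  rw [show 2 * (Real.pi : ℂ) * Complex.I * (x : ℂ) = ((2 * Real.pi * x : ℝ) : ℂ) * Complex.I by
    push_cast; ring]
  exact Complex.norm_exp_ofReal_mul_I _

lemma e1_add (x y : ℝ) : e1 (x + y) = e1 x * e1 y := by
  unfold e1
  rw [← Complex.exp_add]
  congr 1
  push_cast
  ring

lemma e1_int (n : ℤ) : e1 (n : ℝ) = 1 := by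
  unfold e1
  rw [show 2 * (Real.pi : ℂ) * Complex.I * (((n : ℤ) : ℝ) : ℂ) = (n : ℂ) * (2 * Real.pi * Complex.I) by
    push_cast; ring]
  exact Complex.exp_int_mul_two_pi_mul_I n

section

variable {V : ℝ → ℝ}

lemma coef_conv (hVm : Measurable V) {B : ℝ} (hB : ∀ t, |V t| ≤ B) (hper : ∀ t, V (t + 1) = V t)
    (Θ : Measure ℝ) [IsFiniteMeasure Θ] (n : ℤ) :
    ∫ x in (0 : ℝ)..1, e1 (-(n * x)) * ((∫ t, V (x - t) ∂Θ : ℝ) : ℂ) =
      (∫ t, e1 (-(n * t)) ∂Θ) * ∫ u in (0 : ℝ)..1, e1 (-(n * u)) * (V u : ℂ) := by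
  have e0 : ∀ x : ℝ, e1 (-(n * x)) * ((∫ t, V (x - t) ∂Θ : ℝ) : ℂ) =
      ∫ t, e1 (-(n * x)) * (V (x - t) : ℂ) ∂Θ := by
    intro x
    rw [integral_const_mul]
    congr 1
    exact integral_ofReal.symm
  simp_rw [e0]
  rw [intervalIntegral.integral_of_le zero_le_one]
  have hint : Integrable (Function.uncurry fun x t : ℝ => e1 (-(n * x)) * (V (x - t) : ℂ))
      ((volume.restrict (Set.Ioc (0 : ℝ) 1)).prod Θ) := by
    refine Integrable.of_bound (Measurable.aestronglyMeasurable ?_) B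
      (Eventually.of_forall fun z => ?_)
    · change Measurable fun z : ℝ × ℝ => e1 (-(n * z.1)) * (V (z.1 - z.2) : ℂ)
      refine Measurable.mul ?_ ?_
      · exact e1_cont.measurable.comp (by fun_prop)
      · exact Complex.measurable_ofReal.comp (hVm.comp (by fun_prop))
    · change ‖e1 (-(n * z.1)) * (V (z.1 - z.2) : ℂ)‖ ≤ B
      rw [norm_mul, e1_norm, one_mul, Complex.norm_real]
      exact hB _
  rw [integral_integral_swap hint, ← integral_mul_const]
  congr 1
  funext t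
  rw [← intervalIntegral.integral_of_le zero_le_one]
  have e2 : ∀ x : ℝ, e1 (-(n * x)) * (V (x - t) : ℂ) =
      e1 (-(n * t)) * (fun u : ℝ => e1 (-(n * u)) * (V u : ℂ)) (x - t) := by
    intro x
    have : e1 (-(n * x)) = e1 (-(n * t)) * e1 (-(n * (x - t))) := by
      rw [← e1_add]
      congr 1
      ring
    simp only
    rw [this, mul_assoc]
  simp_rw [e2]
  rw [intervalIntegral.integral_const_mul]
  congr 1
  rw [intervalIntegral.integral_comp_sub_right (fun u : ℝ => e1 (-(n * u)) * (V u : ℂ)) t]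
  have hp : Function.Periodic (fun u : ℝ => e1 (-(n * u)) * (V u : ℂ)) 1 := by
    intro u
    simp only
    rw [hper, show -((n : ℝ) * (u + 1)) = -(n * u) + ((-n : ℤ) : ℝ) by push_cast; ring, e1_add,
      e1_int, mul_one]
  have := hp.intervalIntegral_add_eq (-t) 0
  rw [zero_add] at this
  rw [← this]
  congr 1 <;> ring

lemma rcont (hVm : Measurable V) {B : ℝ} (hB : ∀ t, |V t| ≤ B)
    (hrc : ∀ t, ContinuousWithinAt V (Set.Ici t) t) (Θ : Measure ℝ) [IsFiniteMeasure Θ] (y : ℝ) :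
    ContinuousWithinAt (fun y => ∫ t, V (y - t) ∂Θ) (Set.Ici y) y := by
  refine continuousWithinAt_of_dominated (bound := fun _ => B) ?_ ?_ (integrable_const B) ?_
  · exact Eventually.of_forall fun x => (hVm.comp (by fun_prop)).aestronglyMeasurable
  · exact Eventually.of_forall fun x => Eventually.of_forall fun t => hB _
  · refine Eventually.of_forall fun t => ?_
    have h1 : ContinuousWithinAt (fun x : ℝ => x - t) (Set.Ici y) y := by fun_prop
    refine ContinuousWithinAt.comp (t := Set.Ici (y - t)) (hrc (y - t)) h1 ?_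
    intro x hx
    simp only [Set.mem_Ici] at hx ⊢
    linarith

end

/-- **Package TRIV.** -/
theorem t_TRIV : Pool.Agent.U798.BV.S_TRIV := by
  intro V hVm hBd hper hrc Θ₁ Θ₂ hΘ₁ hΘ₂ hcoef y
  obtain ⟨B, hB⟩ := hBd
  obtain ⟨g, hg⟩ : ∃ g : ℝ → ℝ, g = fun y => (∫ t, V (y - t) ∂Θ₁) - ∫ t, V (y - t) ∂Θ₂ := ⟨_, rfl⟩
  have hmeas : ∀ Θ : Measure ℝ, IsFiniteMeasure Θ → Measurable fun y => ∫ t, V (y - t) ∂Θ := by
    intro Θ hΘ
    refine (StronglyMeasurable.integral_prod_right (f := fun y t => V (y - t)) ?_).measurable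
    exact (hVm.comp (by fun_prop : Measurable fun z : ℝ × ℝ => z.1 - z.2)).stronglyMeasurable
  have hgm : Measurable g := by
    rw [hg]
    exact (hmeas Θ₁ hΘ₁).sub (hmeas Θ₂ hΘ₂)
  have hbd : ∀ Θ : Measure ℝ, IsFiniteMeasure Θ → ∀ y, |∫ t, V (y - t) ∂Θ| ≤ B * Θ.real Set.univ := by
    intro Θ hΘ y
    exact norm_integral_le_of_norm_le_const (f := fun t => V (y - t)) (C := B)
      (Eventually.of_forall fun t => hB (y - t))
  have hgb : ∀ x, ‖((g x : ℝ) : ℂ)‖ ≤ B * Θ₁.real Set.univ + B * Θ₂.real Set.univ := by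
    intro x
    rw [Complex.norm_real, hg, Real.norm_eq_abs]
    exact (abs_sub _ _).trans (add_le_add (hbd Θ₁ hΘ₁ x) (hbd Θ₂ hΘ₂ x))
  have hgp : Function.Periodic g 1 := by
    intro x
    have : ∀ t, V (x + 1 - t) = V (x - t) := fun t => by
      rw [show x + 1 - t = (x - t) + 1 by ring, hper]
    simp only [hg, this]
  have hgr : ∀ x, ContinuousWithinAt g (Set.Ici x) x := by
    intro x
    rw [hg]
    exact (rcont hVm hB hrc Θ₁ x).sub (rcont hVm hB hrc Θ₂ x)
  have h0 : ∀ n : ℤ, ∫ x in (0 : ℝ)..1, e1 (-(n * x)) * ((g x : ℝ) : ℂ) = 0 := by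
    intro n
    have hii : ∀ Θ : Measure ℝ, IsFiniteMeasure Θ → IntervalIntegrable
        (fun x : ℝ => e1 (-(n * x)) * ((∫ t, V (x - t) ∂Θ : ℝ) : ℂ)) volume 0 1 := by
      intro Θ hΘ
      rw [intervalIntegrable_iff_integrableOn_Ioc_of_le zero_le_one]
      refine Integrable.of_bound (Measurable.aestronglyMeasurable ?_) (B * Θ.real Set.univ)
        (Eventually.of_forall fun x => ?_)
      · refine Measurable.mul ?_ ?_
        · exact e1_cont.measurable.comp (by fun_prop)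
        · exact Complex.measurable_ofReal.comp (hmeas Θ hΘ)
      · rw [norm_mul, e1_norm, one_mul, Complex.norm_real]
        exact hbd Θ hΘ x
    have e3 : ∀ x : ℝ, e1 (-(n * x)) * ((g x : ℝ) : ℂ) =
        e1 (-(n * x)) * ((∫ t, V (x - t) ∂Θ₁ : ℝ) : ℂ) -
          e1 (-(n * x)) * ((∫ t, V (x - t) ∂Θ₂ : ℝ) : ℂ) := by
      intro x
      rw [hg]
      push_cast
      ring
    simp_rw [e3]
    rw [intervalIntegral.integral_sub (hii Θ₁ hΘ₁) (hii Θ₂ hΘ₂), coef_conv hVm hB hper Θ₁ n,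
      coef_conv hVm hB hper Θ₂ n]
    rcases hcoef n with h | h
    · rw [h]
      ring
    · rw [h]
      ring
  have hae := fourier_unique (fun x => ((g x : ℝ) : ℂ)) (Complex.measurable_ofReal.comp hgm) _ hgb h0
  have key : g (Int.fract y) = 0 := by
    by_contra hne
    have h1 : ∀ᶠ x in 𝓝[Set.Ici (Int.fract y)] (Int.fract y), g x ≠ 0 :=
      (hgr (Int.fract y)).eventually_ne hne
    obtain ⟨u, hu, hsub⟩ := mem_nhdsGE_iff_exists_Ico_subset.mp h1
    rw [ae_restrict_iff' measurableSet_Ioc] at hae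
    have h4 : volume (Set.Ioo (Int.fract y) (min u 1)) = 0 := by
      refine measure_mono_null ?_ (ae_iff.1 hae)
      intro x hx
      simp only [Set.mem_ofPred_eq, Classical.not_imp]
      refine ⟨⟨(Int.fract_nonneg y).trans_lt hx.1, hx.2.le.trans (min_le_right _ _)⟩, ?_⟩
      have h5 := hsub ⟨hx.1.le, hx.2.trans_le (min_le_left _ _)⟩
      simpa using h5
    rw [Real.volume_Ioo, ENNReal.ofReal_eq_zero] at h4
    have h6 : Int.fract y < min u 1 := lt_min hu (Int.fract_lt_one y)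
    linarith
  have h7 : g y = g (Int.fract y) := by
    have h8 := hgp.sub_int_mul_eq (x := y) ⌊y⌋
    rw [mul_one] at h8
    rw [← h8]
    rfl
  have h9 : g y = 0 := by rw [h7, key]
  rw [hg] at h9
  exact sub_eq_zero.mp h9

end Pool.Agent.U660.BV
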